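import Pool.Agent.X303.Zeta

/-!
# Orders of characteristic polynomials at all integers
-/

set_option autoImplicit false

namespace Pool.Agent.X303.Arith

open Module

theorem order_factor (q : ℝ) (hq : 1 < q) (n : ℤ) (α : ℂ) :
    meromorphicOrderAt (fun s : ℂ => 1 - (q : ℂ) ^ (-s) * α) (n : ℂ) =
      if α = (q : ℂ) ^ n then 1 else 0 := by
  have hq0 : (q : ℂ) ≠ 0 := by exact_mod_cast (by linarith : q ≠ 0)
  have hd : ∀ s : ℂ, HasDerivAt (fun s : ℂ => 1 - (q : ℂ) ^ (-s) * α)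
      (- ((q : ℂ) ^ (-s) * Complex.log q * (-1) * α)) s := by
    intro s
    have h1 : HasDerivAt (fun s : ℂ => (q : ℂ) ^ (-s)) ((q : ℂ) ^ (-s) * Complex.log q * (-1)) s :=
      HasDerivAt.const_cpow (hasDerivAt_neg s) (Or.inl hq0)
    exact (h1.mul_const α).const_sub 1
  have han : AnalyticAt ℂ (fun s : ℂ => 1 - (q : ℂ) ^ (-s) * α) (n : ℂ) :=
    (Differentiable.analyticAt (fun s => (hd s).differentiableAt) _)
  have hpow : (q : ℂ) ^ (-(n : ℂ)) = ((q : ℂ) ^ n)⁻¹ := by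
    rw [Complex.cpow_neg, Complex.cpow_intCast]
  have hn0 := zpow_ne_zero n hq0
  rw [han.meromorphicOrderAt_eq]
  by_cases h : α = (q : ℂ) ^ n
  · rw [if_pos h]
    have h1 : (fun s : ℂ => 1 - (q : ℂ) ^ (-s) * α) (n : ℂ) = 0 := by
      simp only
      rw [hpow, h, inv_mul_cancel₀ hn0, sub_self]
    have h2 : deriv (fun s : ℂ => 1 - (q : ℂ) ^ (-s) * α) (n : ℂ) ≠ 0 := by
      rw [(hd n).deriv, hpow, h]
      have h3 : Complex.log q ≠ 0 := by
        rw [← Complex.ofReal_log (by linarith)]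
        exact_mod_cast (Real.log_pos hq).ne'
      have h4 : -(((q : ℂ) ^ n)⁻¹ * Complex.log q * (-1) * (q : ℂ) ^ n) = Complex.log q := by
        field_simp
      rw [h4]
      exact h3
    rw [han.analyticOrderAt_eq_one_of_zero_deriv_ne_zero h1 h2]
    rfl
  · rw [if_neg h]
    have h1 : (fun s : ℂ => 1 - (q : ℂ) ^ (-s) * α) (n : ℂ) ≠ 0 := by
      simp only
      rw [hpow]
      intro h2
      apply h
      rw [sub_eq_zero] at h2
      have h4 : (q : ℂ) ^ n * 1 = (q : ℂ) ^ n * (((q : ℂ) ^ n)⁻¹ * α) := by rw [← h2]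
      rw [mul_one, mul_inv_cancel_left₀ hn0] at h4
      exact h4.symm
    rw [han.analyticOrderAt_eq_zero.2 h1]
    rfl

theorem order_multiset (q : ℝ) (hq : 1 < q) (n : ℤ) (S : Multiset ℂ) :
    MeromorphicAt (fun s : ℂ => (S.map fun α => 1 - (q : ℂ) ^ (-s) * α).prod) (n : ℂ) ∧
    meromorphicOrderAt (fun s : ℂ => (S.map fun α => 1 - (q : ℂ) ^ (-s) * α).prod) (n : ℂ) =
      ((S.count ((q : ℂ) ^ n) : ℤ) : WithTop ℤ) := by
  classical
  have hq0 : (q : ℂ) ≠ 0 := by exact_mod_cast (by linarith : q ≠ 0)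
  induction S using Multiset.induction_on with
  | empty =>
    simp only [Multiset.map_zero, Multiset.prod_zero, Multiset.count_zero]
    refine ⟨MeromorphicAt.const 1 _, ?_⟩
    rw [meromorphicOrderAt_const, if_neg one_ne_zero]
    rfl
  | cons a S ih =>
    have hd : Differentiable ℂ (fun s : ℂ => 1 - (q : ℂ) ^ (-s) * a) := by
      intro s
      have h1 : HasDerivAt (fun s : ℂ => (q : ℂ) ^ (-s))
          ((q : ℂ) ^ (-s) * Complex.log q * (-1)) s :=
        HasDerivAt.const_cpow (hasDerivAt_neg s) (Or.inl hq0)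
      exact ((h1.mul_const a).const_sub 1).differentiableAt
    have hm : MeromorphicAt (fun s : ℂ => 1 - (q : ℂ) ^ (-s) * a) (n : ℂ) :=
      (hd.analyticAt _).meromorphicAt
    simp only [Multiset.map_cons, Multiset.prod_cons]
    refine ⟨hm.fun_mul ih.1, ?_⟩
    rw [fun_meromorphicOrderAt_mul hm ih.1, ih.2, order_factor q hq n a, Multiset.count_cons]
    by_cases h : a = (q : ℂ) ^ n
    · rw [if_pos h, if_pos h.symm]
      push_cast
      rw [add_comm]
    · rw [if_neg h, if_neg (Ne.symm h)]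
      simp

variable {W : Type} [AddCommGroup W] [Module ℂ W] [FiniteDimensional ℂ W]

theorem order_det (q : ℝ) (hq : 1 < q) (n : ℤ) (f : W →ₗ[ℂ] W) :
    meromorphicOrderAt (fun s : ℂ => LinearMap.det (1 - (q : ℂ) ^ (-s) • f)) (n : ℂ) =
      ((finrank ℂ (Module.End.maxGenEigenspace f ((q : ℂ) ^ n)) : ℤ) : WithTop ℤ) := by
  have hq0 : (q : ℂ) ≠ 0 := by exact_mod_cast (by linarith : q ≠ 0)
  have h1 : (fun s : ℂ => LinearMap.det (1 - (q : ℂ) ^ (-s) • f)) =
      fun s : ℂ => (f.charpoly.roots.map fun α => 1 - (q : ℂ) ^ (-s) * α).prod := by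
    funext s
    exact TBDual.det_one_sub_eq f (by simp [Complex.cpow_eq_zero_iff, hq0])
  rw [h1, LinearMap.finrank_maxGenEigenspace_eq, ← Polynomial.count_roots]
  exact (order_multiset q hq n _).2

theorem meromorphic_det (q : ℝ) (hq : 1 < q) (f : W →ₗ[ℂ] W) (z : ℂ) :
    MeromorphicAt (fun s : ℂ => LinearMap.det (1 - (q : ℂ) ^ (-s) • f)) z := by
  have hq0 : (q : ℂ) ≠ 0 := by exact_mod_cast (by linarith : q ≠ 0)
  have h1 : (fun s : ℂ => LinearMap.det (1 - (q : ℂ) ^ (-s) • f)) =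
      fun s : ℂ => (f.charpoly.roots.map fun α => 1 - (q : ℂ) ^ (-s) * α).prod := by
    funext s
    exact TBDual.det_one_sub_eq f (by simp [Complex.cpow_eq_zero_iff, hq0])
  rw [h1]
  generalize f.charpoly.roots = S
  induction S using Multiset.induction_on with
  | empty =>
    simp only [Multiset.map_zero, Multiset.prod_zero]
    exact MeromorphicAt.const 1 _
  | cons a S ih =>
    have hd : Differentiable ℂ (fun s : ℂ => 1 - (q : ℂ) ^ (-s) * a) := by
      intro s
      have h1 : HasDerivAt (fun s : ℂ => (q : ℂ) ^ (-s))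
          ((q : ℂ) ^ (-s) * Complex.log q * (-1)) s :=
        HasDerivAt.const_cpow (hasDerivAt_neg s) (Or.inl hq0)
      exact ((h1.mul_const a).const_sub 1).differentiableAt
    simp only [Multiset.map_cons, Multiset.prod_cons]
    exact ((hd.analyticAt _).meromorphicAt).fun_mul ih

open Pool.Agent.X303.TBDual

theorem order_zeta (C : FrobCoh) (hfin : ∀ j, FiniteDimensional ℂ (C.H j)) {q : ℕ} (hq : 1 < q)
    (m : ℕ) :
    MeromorphicOn (C.zeta q m) Set.univ ∧ ∀ n : ℤ,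
    meromorphicOrderAt (C.zeta q m) (n : ℂ) =
      ((∑ j ∈ Finset.range (m + 1), (-1 : ℤ) ^ (j + 1) *
        (finrank ℂ (Module.End.maxGenEigenspace (C.F j) ((q : ℂ) ^ n)) : ℤ) : ℤ) : WithTop ℤ) := by
  have hqR : (1 : ℝ) < (q : ℝ) := by exact_mod_cast hq
  have hmer : ∀ (j : ℕ) (z : ℂ), MeromorphicAt (fun s : ℂ =>
        (LinearMap.det (1 - (q : ℂ) ^ (-s) • C.F j)) ^ ((-1 : ℤ) ^ (j + 1))) z := by
    intro j z
    have h1 := meromorphic_det (q : ℝ) hqR (C.F j) z
    rw [Complex.ofReal_natCast] at h1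
    exact h1.fun_zpow _
  constructor
  · intro z _
    unfold FrobCoh.zeta detFun
    have h2 : (fun s : ℂ => ∏ i ∈ Finset.range (m + 1),
        (LinearMap.det (1 - (q : ℂ) ^ (-s) • C.F i)) ^ ((-1 : ℤ) ^ (i + 1))) =
        ∏ i ∈ Finset.range (m + 1), fun s : ℂ =>
        (LinearMap.det (1 - (q : ℂ) ^ (-s) • C.F i)) ^ ((-1 : ℤ) ^ (i + 1)) := by
      funext s
      rw [Finset.prod_apply]
    change MeromorphicAt (fun s : ℂ => ∏ i ∈ Finset.range (m + 1),
        (LinearMap.det (1 - (q : ℂ) ^ (-s) • C.F i)) ^ ((-1 : ℤ) ^ (i + 1))) z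
    rw [h2]
    exact MeromorphicAt.prod fun i _ => hmer i z
  · intro n
    have hdet : ∀ j : ℕ, 
        meromorphicOrderAt (fun s : ℂ =>
        (LinearMap.det (1 - (q : ℂ) ^ (-s) • C.F j)) ^ ((-1 : ℤ) ^ (j + 1))) (n : ℂ) =
        (((-1 : ℤ) ^ (j + 1) * finrank ℂ
          (Module.End.maxGenEigenspace (C.F j) ((q : ℂ) ^ n)) : ℤ) : WithTop ℤ) := by
      intro j
      have h0 := meromorphic_det (q : ℝ) hqR (C.F j) (n : ℂ)
      have h2 := order_det (q : ℝ) hqR n (C.F j)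
      rw [Complex.ofReal_natCast] at h0 h2
      rw [fun_meromorphicOrderAt_zpow h0, h2]
      rfl
    unfold FrobCoh.zeta detFun
    rw [meromorphicOrderAt_fun_prod (fun j _ => hmer j _),
      Finset.sum_congr rfl (fun j _ => hdet j), ← WithTop.coe_sum]

end Pool.Agent.X303.Arith
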