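import Pool.Agent.X303.Arith.Class
import Pool.Agent.X303.Arith.Order
import Pool.Agent.X303.Pole

/-!
# Rings of integers and schemes over finite fields
-/

set_option autoImplicit false

namespace Pool.Agent.X303.Arith

open Pool.Agent.W495.FM Pool.Agent.X303.TBDual Module

variable {V : Type} {S : Schemes V}

theorem numberRing {X : V} (h : IsNumberRing S X) : BlochSoule S X := by
  obtain ⟨r₁, r₂, h1, f, h2, h3⟩ := h
  refine ⟨fun a b => (h1 a b).1, fun b => ?_, f, h2, fun b => ?_⟩
  · refine (Set.finite_Icc (1 : ℤ) 2).subset fun a ha => ?_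
    have h4 : finrank ℚ (S.M X a b) ≠ 0 := ha
    rw [(h1 a b).2] at h4
    unfold numberRank at h4
    rw [Set.mem_Icc]
    split_ifs at h4 with h5 h6 h7 <;> first | omega | (exfalso; exact h4 rfl)
  · rw [h3]
    congr 1
    have h4 : altRank S X b =
        ∑ a ∈ ({1, 2} : Finset ℤ), (-1 : ℤ) ^ a.natAbs * (numberRank r₁ r₂ a b : ℤ) := by
      unfold altRank
      rw [finsum_congr fun a => by rw [(h1 a b).2]]
      apply finsum_eq_sum_of_support_subset
      intro a ha
      have h5 : numberRank r₁ r₂ a b ≠ 0 := by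
        intro h6
        apply ha
        simp [h6]
      unfold numberRank at h5
      rw [Finset.coe_insert, Finset.coe_singleton, Set.mem_insert_iff, Set.mem_singleton_iff]
      split_ifs at h5 with h6 h7 h8 <;> first | omega | (exfalso; exact h5 rfl)
    rw [h4, Finset.sum_pair (by norm_num)]
    unfold numberRank numberOrder
    rcases lt_trichotomy b 0 with h5 | h5 | h5
    · simp only [show ¬ b = 1 by omega, show ¬ b = 0 by omega, h5, if_false, if_true, false_and,
        true_and, show ¬ ((2 : ℤ) = 1) by norm_num]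
      split_ifs <;> norm_num
    · subst h5
      norm_num
    · by_cases h6 : b = 1
      · subst h6
        norm_num
      · simp [h6, show ¬ b = 0 by omega, show ¬ b < 0 by omega]

theorem finiteField {X : V} {W : Type} {T : Homology ℂ W} (hT : IsHomology T) {X' : W}
    (hTB : TB T X') (h : IsFinite S X T X') : BlochSoule S X := by
  obtain ⟨q, C, n, hq, hC, hM, σ, hσ⟩ := h
  have hiso : ∀ a b, (FiniteDimensional ℚ (S.M X a b)) ∧
      finrank ℚ (S.M X a b) = finrank ℚ (T.M X' a b) := by
    intro a b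
    obtain ⟨φ, h1, h2⟩ := hM a b
    let e : S.M X a b ≃ₗ[ℚ] T.M X' a b := LinearEquiv.ofBijective (mkL h1) h2
    have := finite_M hT hTB a b
    exact ⟨LinearEquiv.finiteDimensional e.symm, LinearEquiv.finrank_eq e⟩
  have hzero : ∀ a b : ℤ, a < 0 ∨ (n : ℤ) < a → finrank ℚ (T.M X' a b) = 0 := by
    intro a b hab
    have h1 : ∀ x : T.M X' a b, x = 0 := by
      intro x
      by_contra hx
      exact reg_ne_zero hTB hx (hC.vanish a b hab _)
    have : Subsingleton (T.M X' a b) := ⟨fun x y => by rw [h1 x, h1 y]⟩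
    exact finrank_zero_of_subsingleton
  have hmem : ∀ a b : ℤ, finrank ℚ (T.M X' a b) ≠ 0 → ∃ j ∈ Finset.range (n + 1), (j : ℤ) = a := by
    intro a b h0
    have h1 : ¬ (a < 0 ∨ (n : ℤ) < a) := fun h => h0 (hzero a b h)
    refine ⟨a.toNat, ?_, by omega⟩
    rw [Finset.mem_range]
    omega
  have hfinC := hC.finite
  obtain ⟨o1, o2⟩ := order_zeta C hC.finite hq n
  refine ⟨fun a b => (hiso a b).1, fun b => ?_, C.zeta q n, ⟨o1, σ, hσ⟩, fun b => ?_⟩
  · refine ((Finset.range (n + 1)).finite_toSet.image fun j : ℕ => (j : ℤ)).subset fun a ha => ?_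
    have h4 : finrank ℚ (S.M X a b) ≠ 0 := ha
    rw [(hiso a b).2] at h4
    obtain ⟨j, h5, h6⟩ := hmem a b h4
    exact ⟨j, h5, h6⟩
  · rw [o2]
    congr 1
    have hq0 : (q : ℂ) ≠ 0 := by exact_mod_cast (by omega : q ≠ 0)
    have h1 : ∀ j : ℕ, finrank ℂ (Module.End.maxGenEigenspace (C.F j) ((q : ℂ) ^ b)) =
        finrank ℚ (T.M X' (j : ℤ) b) := by
      intro j
      obtain ⟨P, p1, p2, p3, p4⟩ := hC.dual j b
      exact finrank_maxGen_dual hT hTB (j : ℤ) b (C.F j) (hC.injective j) (zpow_ne_zero b hq0) P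
        p1 p2 p3 p4
    unfold altRank
    rw [finsum_eq_sum_of_support_subset (s := (Finset.range (n + 1)).map Nat.castEmbedding),
      Finset.sum_map, ← Finset.sum_neg_distrib]
    · refine Finset.sum_congr rfl fun j _ => ?_
      rw [h1, Nat.castEmbedding_apply, (hiso (j : ℤ) b).2, Int.natAbs_natCast, pow_succ]
      ring
    · intro a ha
      have h5 : finrank ℚ (T.M X' a b) ≠ 0 := by
        intro h6
        apply ha
        simp [(hiso a b).2, h6]
      obtain ⟨j, h7, h8⟩ := hmem a b h5
      rw [Finset.coe_map, Set.mem_image]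
      exact ⟨j, h7, h8⟩

end Pool.Agent.X303.Arith
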