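import Pool.Agent.X303.Arith.Class

/-!
# Independence of the model
-/

set_option autoImplicit false

namespace Pool.Agent.X303.Arith

open Pool.Agent.W495.FM Pool.Agent.X303.TBDual Module

variable {V : Type} {S : Schemes V}

theorem transfer_up {Z X U : V} (h : IsTriple S Z X U) (cZ : Converges S Z) (cU : Converges S U)
    (bZ : BlochSoule S Z) {b : ℤ} {Ω : Set ℂ} {f : ℂ → ℂ}
    (h1 : ∃ σ : ℝ, ∀ s : ℂ, σ < s.re → s ∈ Ω ∧ f s = euler S X s)
    (h2 : MeromorphicOn f Ω) (h3 : ∀ a, FiniteDimensional ℚ (S.M X a b))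
    (h4 : {a | finrank ℚ (S.M X a b) ≠ 0}.Finite) (hb : (b : ℂ) ∈ Ω) :
    ∃ g : ℂ → ℂ, (∃ σ : ℝ, ∀ s : ℂ, σ < s.re → s ∈ Ω ∧ g s = euler S U s) ∧ MeromorphicOn g Ω ∧
      (∀ a, FiniteDimensional ℚ (S.M U a b)) ∧ {a | finrank ℚ (S.M U a b) ≠ 0}.Finite ∧
      (meromorphicOrderAt g (b : ℂ) = ((-altRank S U b : ℤ) : WithTop ℤ) →
        meromorphicOrderAt f (b : ℂ) = ((-altRank S X b : ℤ) : WithTop ℤ)) := by
  obtain ⟨α, β, δ, e1, e2⟩ := h.exact b
  have hfin : ∀ a, FiniteDimensional ℚ (S.M U a b) := by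
    intro a
    have h5 := finite_of_exact (e1 (a - 1 + 1)).2.1 (e1 (a - 1)).2.2 (e2 (a - 1)).2.1
      (h3 (a - 1 + 1)) (bZ.finite (a - 1) b)
    rw [sub_add_cancel] at h5
    exact h5
  have hs := supp_right (fun a => (e1 a).1) (fun a => (e1 a).2.1) (fun a => (e1 a).2.2)
      (fun a => (e2 a).1) (fun a => (e2 a).2.1) (fun a => (e2 a).2.2) (fun a => bZ.finite a b)
      h3 hfin (bZ.bounded b) h4
  have key : altRank S X b = altRank S Z b + altRank S U b :=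
    (euler_char (fun a => (e1 a).1) (fun a => (e1 a).2.1) (fun a => (e1 a).2.2)
      (fun a => (e2 a).1) (fun a => (e2 a).2.1) (fun a => (e2 a).2.2) (fun a => bZ.finite a b)
      h3 hfin (bZ.bounded b) hs).2
  obtain ⟨fZ, ⟨f1, σ₁, f2⟩, f3⟩ := bZ.order
  obtain ⟨σ₂, hσ⟩ := euler_triple h cZ cU
  obtain ⟨σ₃, h1⟩ := h1
  have hg : MeromorphicOn (fun s => f s * (fZ s)⁻¹) Ω :=
    fun z hz => (h2 z hz).fun_mul (f1 z trivial).fun_inv
  refine ⟨fun s => f s * (fZ s)⁻¹, ⟨max (max σ₁ σ₂) σ₃, fun s hs => ?_⟩, hg, hfin, hs, fun ho => ?_⟩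
  · have k1 : σ₁ < s.re := lt_of_le_of_lt ((le_max_left _ _).trans (le_max_left _ _)) hs
    have k2 : σ₂ < s.re := lt_of_le_of_lt ((le_max_right _ _).trans (le_max_left _ _)) hs
    obtain ⟨k3, k4⟩ := h1 s (lt_of_le_of_lt (le_max_right _ _) hs)
    obtain ⟨k5, k6, k7⟩ := hσ s k2
    refine ⟨k3, ?_⟩
    change f s * (fZ s)⁻¹ = _
    rw [k4, f2 s k1, k5, mul_comm, inv_mul_cancel_left₀ k6]
  · have h6 : f =ᶠ[nhdsWithin (b : ℂ) {(b : ℂ)}ᶜ] fun s => (f s * (fZ s)⁻¹) * fZ s := by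
      have h7 : meromorphicOrderAt fZ (b : ℂ) ≠ ⊤ := by
        rw [f3 b]
        exact WithTop.coe_ne_top
      have h8 := (meromorphicOrderAt_ne_top_iff_eventually_ne_zero (f1 _ trivial)).1 h7
      filter_upwards [h8] with s hs
      rw [inv_mul_cancel_right₀ hs]
    rw [meromorphicOrderAt_congr h6, order_mul' (hg _ hb) (f1 _ trivial) ho (f3 b), key]
    congr 1
    ring

theorem transfer_down {Z X U : V} (h : IsTriple S Z X U) (cZ : Converges S Z) (cU : Converges S U)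
    (bZ : BlochSoule S Z) {b : ℤ} {Ω : Set ℂ} {g : ℂ → ℂ}
    (h1 : ∃ σ : ℝ, ∀ s : ℂ, σ < s.re → s ∈ Ω ∧ g s = euler S U s)
    (h2 : MeromorphicOn g Ω) (h3 : ∀ a, FiniteDimensional ℚ (S.M U a b))
    (h4 : {a | finrank ℚ (S.M U a b) ≠ 0}.Finite) (hb : (b : ℂ) ∈ Ω) :
    ∃ f : ℂ → ℂ, (∃ σ : ℝ, ∀ s : ℂ, σ < s.re → s ∈ Ω ∧ f s = euler S X s) ∧ MeromorphicOn f Ω ∧
      (∀ a, FiniteDimensional ℚ (S.M X a b)) ∧ {a | finrank ℚ (S.M X a b) ≠ 0}.Finite ∧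
      (meromorphicOrderAt f (b : ℂ) = ((-altRank S X b : ℤ) : WithTop ℤ) →
        meromorphicOrderAt g (b : ℂ) = ((-altRank S U b : ℤ) : WithTop ℤ)) := by
  obtain ⟨α, β, δ, e1, e2⟩ := h.exact b
  have hfin : ∀ a, FiniteDimensional ℚ (S.M X a b) := fun a =>
    finite_of_exact (e1 a).1 (e1 a).2.1 (e2 a).1 (bZ.finite a b) (h3 a)
  obtain ⟨hs, key⟩ := euler_char (fun a => (e1 a).1) (fun a => (e1 a).2.1) (fun a => (e1 a).2.2)
      (fun a => (e2 a).1) (fun a => (e2 a).2.1) (fun a => (e2 a).2.2) (fun a => bZ.finite a b)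
      hfin h3 (bZ.bounded b) h4
  have key : altRank S X b = altRank S Z b + altRank S U b := key
  obtain ⟨fZ, ⟨f1, σ₁, f2⟩, f3⟩ := bZ.order
  obtain ⟨σ₂, hσ⟩ := euler_triple h cZ cU
  obtain ⟨σ₃, h1⟩ := h1
  have hg : MeromorphicOn (fun s => g s * fZ s) Ω := fun z hz => (h2 z hz).fun_mul (f1 z trivial)
  refine ⟨fun s => g s * fZ s, ⟨max (max σ₁ σ₂) σ₃, fun s hs => ?_⟩, hg, hfin, hs, fun ho => ?_⟩
  · have k1 : σ₁ < s.re := lt_of_le_of_lt ((le_max_left _ _).trans (le_max_left _ _)) hs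
    have k2 : σ₂ < s.re := lt_of_le_of_lt ((le_max_right _ _).trans (le_max_left _ _)) hs
    obtain ⟨k3, k4⟩ := h1 s (lt_of_le_of_lt (le_max_right _ _) hs)
    obtain ⟨k5, k6, k7⟩ := hσ s k2
    refine ⟨k3, ?_⟩
    change g s * fZ s = _
    rw [k4, f2 s k1, k5, mul_comm]
  · have h6 : g =ᶠ[nhdsWithin (b : ℂ) {(b : ℂ)}ᶜ] fun s => (g s * fZ s) * (fZ s)⁻¹ := by
      have h7 : meromorphicOrderAt fZ (b : ℂ) ≠ ⊤ := by
        rw [f3 b]
        exact WithTop.coe_ne_top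
      have h8 := (meromorphicOrderAt_ne_top_iff_eventually_ne_zero (f1 _ trivial)).1 h7
      filter_upwards [h8] with s hs
      rw [mul_inv_cancel_right₀ hs]
    rw [meromorphicOrderAt_congr h6, order_div' (hg _ hb) (f1 _ trivial) ho (f3 b), key]
    congr 1
    ring

/-- The statement of Soulé for `X` at `s = b`: let `f` be a function which is meromorphic on a connected open
set containing `b` and a right half-plane, on which it is the Euler product of `X`. If the groups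
`CH_b(X, i)` have finite rank, which is zero for all but finitely many `i`, then the order of `f` at
`s = b` is minus the alternating sum of the ranks. -/
def SouleAt (S : Schemes V) (X : V) (b : ℤ) : Prop :=
  ∀ (Ω : Set ℂ) (f : ℂ → ℂ), IsOpen Ω → IsPreconnected Ω → (b : ℂ) ∈ Ω → MeromorphicOn f Ω →
    (∃ σ : ℝ, ∀ s : ℂ, σ < s.re → s ∈ Ω ∧ f s = euler S X s) →
    (∀ a, FiniteDimensional ℚ (S.M X a b)) → {a | finrank ℚ (S.M X a b) ≠ 0}.Finite →
    meromorphicOrderAt f (b : ℂ) = ((-altRank S X b : ℤ) : WithTop ℤ)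

theorem soule_iff_opened {Z X U : V} (h : IsTriple S Z X U) (cZ : Converges S Z)
    (cU : Converges S U) (bZ : BlochSoule S Z) (b : ℤ) : SouleAt S X b ↔ SouleAt S U b := by
  constructor
  · intro hX Ω g h1 h2 h3 h4 h5 h6 h7
    obtain ⟨f, k1, k2, k3, k4, k5⟩ := transfer_down h cZ cU bZ h5 h4 h6 h7 h3
    exact k5 (hX Ω f h1 h2 h3 k2 k1 k3 k4)
  · intro hU Ω f h1 h2 h3 h4 h5 h6 h7
    obtain ⟨g, k1, k2, k3, k4, k5⟩ := transfer_up h cZ cU bZ h5 h4 h6 h7 h3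
    exact k5 (hU Ω g h1 h2 h3 k2 k1 k3 k4)

end Pool.Agent.X303.Arith
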