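import Pool.Agent.W495.FM.HomDefs

/-!
# Alternating sums of ranks in a long exact sequence
-/

set_option autoImplicit false

namespace Pool.Agent.X303.Arith

open Pool.Agent.W495.FM Module

/-- The sign of an integer. -/
theorem sign_add_one (a : ℤ) : (-1 : ℤ) ^ (a + 1).natAbs = -(-1 : ℤ) ^ a.natAbs := by
  rcases Int.even_or_odd a with h | h
  · have h1 : Even a.natAbs := Int.natAbs_even.2 h
    have h2 : Odd (a + 1).natAbs := Int.natAbs_odd.2 (Even.add_one h)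
    rw [h1.neg_one_pow, h2.neg_one_pow]
  · have h1 : Odd a.natAbs := Int.natAbs_odd.2 h
    have h2 : Even (a + 1).natAbs := Int.natAbs_even.2 (Odd.add_one h)
    rw [h1.neg_one_pow, h2.neg_one_pow, neg_neg]

theorem sign_add_two (a : ℤ) (n : ℕ) : (-1 : ℤ) ^ (a + 2 * n).natAbs = (-1 : ℤ) ^ a.natAbs := by
  induction n with
  | zero => simp
  | succ n ih =>
    have h1 : a + 2 * ((n + 1 : ℕ) : ℤ) = (a + 2 * n + 1) + 1 := by push_cast; ring
    rw [h1, sign_add_one, sign_add_one, neg_neg, ih]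

section exact

variable {A B C : Type} [AddCommGroup A] [Module ℚ A] [AddCommGroup B] [Module ℚ B]
  [AddCommGroup C] [Module ℚ C]

/-- the linear map -/
def mkL {f : A → B} (hf : IsAdd f) : A →ₗ[ℚ] B := (AddMonoidHom.mk' f hf).toRatLinearMap

theorem mkL_apply {f : A → B} (hf : IsAdd f) (x : A) : mkL hf x = f x := rfl

theorem exact_mkL {f : A → B} {g : B → C} (hf : IsAdd f) (hg : IsAdd g) (h : Function.Exact f g) :
    LinearMap.ker (mkL hg) = LinearMap.range (mkL hf) := by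
  ext x
  rw [LinearMap.mem_ker, mkL_apply, h x]
  exact Iff.rfl

theorem finite_of_exact {f : A → B} {g : B → C} (hf : IsAdd f) (hg : IsAdd g)
    (h : Function.Exact f g) (hA : FiniteDimensional ℚ A) (hC : FiniteDimensional ℚ C) :
    FiniteDimensional ℚ B := by
  have h1 : FiniteDimensional ℚ (LinearMap.ker (mkL hg)) := by
    rw [exact_mkL hf hg h]
    infer_instance
  have h2 : FiniteDimensional ℚ (B ⧸ LinearMap.ker (mkL hg)) :=
    LinearEquiv.finiteDimensional (mkL hg).quotKerEquivRange.symm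
  exact Module.Finite.of_submodule_quotient (LinearMap.ker (mkL hg))

end exact

variable {A B C : ℤ → Type} [∀ i, AddCommGroup (A i)] [∀ i, Module ℚ (A i)]
  [∀ i, AddCommGroup (B i)] [∀ i, Module ℚ (B i)] [∀ i, AddCommGroup (C i)] [∀ i, Module ℚ (C i)]
  {α : ∀ i, A i → B i} {β : ∀ i, B i → C i} {δ : ∀ i, C (i + 1) → A i}

/-- the support -/
def supp (A : ℤ → Type) [∀ i, AddCommGroup (A i)] [∀ i, Module ℚ (A i)] : Set ℤ :=
  {i | finrank ℚ (A i) ≠ 0}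

theorem ranks (hα : ∀ i, IsAdd (α i)) (hβ : ∀ i, IsAdd (β i)) (hδ : ∀ i, IsAdd (δ i))
    (h1 : ∀ i, Function.Exact (α i) (β i)) (h2 : ∀ i, Function.Exact (β (i + 1)) (δ i))
    (h3 : ∀ i, Function.Exact (δ i) (α i)) (hA : ∀ i, FiniteDimensional ℚ (A i))
    (hB : ∀ i, FiniteDimensional ℚ (B i)) (hC : ∀ i, FiniteDimensional ℚ (C i)) :
    ∃ a b d : ℤ → ℕ, (∀ i, finrank ℚ (A i) = a i + d i) ∧ (∀ i, finrank ℚ (B i) = a i + b i) ∧
      ∀ i, finrank ℚ (C (i + 1)) = b (i + 1) + d i := by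
  refine ⟨fun i => finrank ℚ (LinearMap.range (mkL (hα i))),
    fun i => finrank ℚ (LinearMap.range (mkL (hβ i))),
    fun i => finrank ℚ (LinearMap.range (mkL (hδ i))), fun i => ?_, fun i => ?_, fun i => ?_⟩
  · rw [← LinearMap.finrank_range_add_finrank_ker (mkL (hα i)), exact_mkL (hδ i) (hα i) (h3 i)]
  · rw [← LinearMap.finrank_range_add_finrank_ker (mkL (hβ i)), exact_mkL (hα i) (hβ i) (h1 i),
      add_comm]
  · rw [← LinearMap.finrank_range_add_finrank_ker (mkL (hδ i)),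
      exact_mkL (hβ (i + 1)) (hδ i) (h2 i), add_comm]

/-- Supports and the alternating sum. -/
theorem euler_char (hα : ∀ i, IsAdd (α i)) (hβ : ∀ i, IsAdd (β i)) (hδ : ∀ i, IsAdd (δ i))
    (h1 : ∀ i, Function.Exact (α i) (β i)) (h2 : ∀ i, Function.Exact (β (i + 1)) (δ i))
    (h3 : ∀ i, Function.Exact (δ i) (α i)) (hA : ∀ i, FiniteDimensional ℚ (A i))
    (hB : ∀ i, FiniteDimensional ℚ (B i)) (hC : ∀ i, FiniteDimensional ℚ (C i)) :
    (supp A).Finite → (supp C).Finite → (supp B).Finite ∧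
      ∑ᶠ i : ℤ, (-1 : ℤ) ^ i.natAbs * (finrank ℚ (B i) : ℤ) =
      ∑ᶠ i : ℤ, (-1 : ℤ) ^ i.natAbs * (finrank ℚ (A i) : ℤ) +
        ∑ᶠ i : ℤ, (-1 : ℤ) ^ i.natAbs * (finrank ℚ (C i) : ℤ) := by
  intro sA sC
  obtain ⟨a, b, d, ha, hb, hd⟩ := ranks hα hβ hδ h1 h2 h3 hA hB hC
  have hd' : ∀ i, finrank ℚ (C i) = b i + d (i - 1) := by
    intro i
    have := hd (i - 1)
    rw [sub_add_cancel] at this
    exact this
  have ta : {i | a i ≠ 0}.Finite := sA.subset fun i hi => by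
    have h4 : a i ≠ 0 := hi
    change finrank ℚ (A i) ≠ 0
    rw [ha]; omega
  have td : {i | d i ≠ 0}.Finite := sA.subset fun i hi => by
    have h4 : d i ≠ 0 := hi
    change finrank ℚ (A i) ≠ 0
    rw [ha]; omega
  have tb : {i | b i ≠ 0}.Finite := sC.subset fun i hi => by
    have h4 : b i ≠ 0 := hi
    change finrank ℚ (C i) ≠ 0
    rw [hd']; omega
  have fin : ∀ (f : ℤ → ℕ), {i | f i ≠ 0}.Finite →
      (Function.support fun i : ℤ => (-1 : ℤ) ^ i.natAbs * (f i : ℤ)).Finite := by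
    intro f hf
    refine hf.subset fun i hi => ?_
    change f i ≠ 0
    intro h0
    apply hi
    simp [h0]
  have td' : {i : ℤ | d (i - 1) ≠ 0}.Finite := by
    refine (td.image fun i => i + 1).subset fun i hi => ⟨i - 1, hi, by simp⟩
  refine ⟨(ta.union tb).subset fun i hi => ?_, ?_⟩
  · have h4 : finrank ℚ (B i) ≠ 0 := hi
    rw [hb] at h4
    change a i ≠ 0 ∨ b i ≠ 0
    omega
  have e1 : ∑ᶠ i : ℤ, (-1 : ℤ) ^ i.natAbs * (finrank ℚ (B i) : ℤ) =
      ∑ᶠ i : ℤ, (-1 : ℤ) ^ i.natAbs * (a i : ℤ) + ∑ᶠ i : ℤ, (-1 : ℤ) ^ i.natAbs * (b i : ℤ) := by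
    rw [← finsum_add_distrib (fin a ta) (fin b tb)]
    exact finsum_congr fun i => by rw [hb]; push_cast; ring
  have e2 : ∑ᶠ i : ℤ, (-1 : ℤ) ^ i.natAbs * (finrank ℚ (A i) : ℤ) =
      ∑ᶠ i : ℤ, (-1 : ℤ) ^ i.natAbs * (a i : ℤ) + ∑ᶠ i : ℤ, (-1 : ℤ) ^ i.natAbs * (d i : ℤ) := by
    rw [← finsum_add_distrib (fin a ta) (fin d td)]
    exact finsum_congr fun i => by rw [ha]; push_cast; ring
  have e3 : ∑ᶠ i : ℤ, (-1 : ℤ) ^ i.natAbs * (finrank ℚ (C i) : ℤ) =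
      ∑ᶠ i : ℤ, (-1 : ℤ) ^ i.natAbs * (b i : ℤ) +
        ∑ᶠ i : ℤ, (-1 : ℤ) ^ i.natAbs * (d (i - 1) : ℤ) := by
    rw [← finsum_add_distrib (fin b tb) (fin (fun i => d (i - 1)) td')]
    exact finsum_congr fun i => by rw [hd']; push_cast; ring
  have e4 : ∑ᶠ i : ℤ, (-1 : ℤ) ^ i.natAbs * (d (i - 1) : ℤ) =
      -∑ᶠ i : ℤ, (-1 : ℤ) ^ i.natAbs * (d i : ℤ) := by
    rw [← finsum_neg_distrib]
    have h5 := finsum_comp_equiv (Equiv.addRight (1 : ℤ))
      (f := fun i : ℤ => (-1 : ℤ) ^ i.natAbs * (d (i - 1) : ℤ))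
    rw [← h5]
    refine finsum_congr fun i => ?_
    simp only [Equiv.coe_addRight, add_sub_cancel_right]
    rw [sign_add_one]
    ring
  rw [e1, e2, e3, e4]
  ring

theorem supp_left (hα : ∀ i, IsAdd (α i)) (hβ : ∀ i, IsAdd (β i)) (hδ : ∀ i, IsAdd (δ i))
    (h1 : ∀ i, Function.Exact (α i) (β i)) (h2 : ∀ i, Function.Exact (β (i + 1)) (δ i))
    (h3 : ∀ i, Function.Exact (δ i) (α i)) (hA : ∀ i, FiniteDimensional ℚ (A i))
    (hB : ∀ i, FiniteDimensional ℚ (B i)) (hC : ∀ i, FiniteDimensional ℚ (C i)) :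
    (supp B).Finite → (supp C).Finite → (supp A).Finite := by
  intro sB sC
  obtain ⟨a, b, d, ha, hb, hd⟩ := ranks hα hβ hδ h1 h2 h3 hA hB hC
  refine (sB.union (sC.image fun i => i - 1)).subset fun i hi => ?_
  have h4 : finrank ℚ (A i) ≠ 0 := hi
  rw [ha] at h4
  by_cases h5 : a i = 0
  · right
    refine ⟨i + 1, ?_, by simp⟩
    change finrank ℚ (C (i + 1)) ≠ 0
    rw [hd]; omega
  · left
    change finrank ℚ (B i) ≠ 0
    rw [hb]; omega

theorem supp_right (hα : ∀ i, IsAdd (α i)) (hβ : ∀ i, IsAdd (β i)) (hδ : ∀ i, IsAdd (δ i))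
    (h1 : ∀ i, Function.Exact (α i) (β i)) (h2 : ∀ i, Function.Exact (β (i + 1)) (δ i))
    (h3 : ∀ i, Function.Exact (δ i) (α i)) (hA : ∀ i, FiniteDimensional ℚ (A i))
    (hB : ∀ i, FiniteDimensional ℚ (B i)) (hC : ∀ i, FiniteDimensional ℚ (C i)) :
    (supp A).Finite → (supp B).Finite → (supp C).Finite := by
  intro sA sB
  obtain ⟨a, b, d, ha, hb, hd⟩ := ranks hα hβ hδ h1 h2 h3 hA hB hC
  refine (sB.union (sA.image fun i => i + 1)).subset fun i hi => ?_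
  have h4 : finrank ℚ (C i) ≠ 0 := hi
  have h5 := hd (i - 1)
  rw [sub_add_cancel] at h5
  rw [h5] at h4
  by_cases h6 : b i = 0
  · right
    refine ⟨i - 1, ?_, by simp⟩
    change finrank ℚ (A (i - 1)) ≠ 0
    rw [ha]; omega
  · left
    change finrank ℚ (B i) ≠ 0
    rw [hb]; omega

end Pool.Agent.X303.Arith
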