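import Pool.Agent.X303.Arith.Defs
import Pool.Agent.X303.Arith.Les

/-!
# The class of the arithmetic schemes that satisfy the statements of Bloch and Soulé
-/

set_option autoImplicit false

namespace Pool.Agent.X303.Arith

open Pool.Agent.W495.FM Pool.Agent.X303.TBDual Module

variable {V : Type} {S : Schemes V}

theorem euler_triple {Z X U : V} (h : IsTriple S Z X U) (cZ : Converges S Z) (cU : Converges S U) :
    ∃ σ : ℝ, ∀ s : ℂ, σ < s.re →
      euler S X s = euler S Z s * euler S U s ∧ euler S Z s ≠ 0 ∧ euler S U s ≠ 0 := by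
  obtain ⟨e, he, h1, h2⟩ := h.points
  obtain ⟨σ₁, k1⟩ := cZ
  obtain ⟨σ₂, k2⟩ := cU
  refine ⟨max σ₁ σ₂, fun s hs => ?_⟩
  obtain ⟨m1, n1⟩ := k1 s (lt_of_le_of_lt (le_max_left _ _) hs)
  obtain ⟨m2, n2⟩ := k2 s (lt_of_le_of_lt (le_max_right _ _) hs)
  refine ⟨?_, n1, n2⟩
  unfold euler
  rw [← (Equiv.ofBijective e he).tprod_eq]
  rw [Multipliable.tprod_sum (f := fun x => (1 - (S.N X ((Equiv.ofBijective e he) x) : ℂ) ^ (-s))⁻¹)]
  · congr 1
    · exact tprod_congr fun z => by rw [Equiv.ofBijective_apply, h1]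
    · exact tprod_congr fun z => by rw [Equiv.ofBijective_apply, h2]
  · refine m1.congr fun z => ?_
    simp only [Function.comp_apply]
    rw [Equiv.ofBijective_apply, h1]
  · refine m2.congr fun z => ?_
    simp only [Function.comp_apply]
    rw [Equiv.ofBijective_apply, h2]

theorem isZeta_mul {X Y Z : V} {f g : ℂ → ℂ} (hf : IsZeta S X f) (hg : IsZeta S Y g)
    (h : ∃ σ : ℝ, ∀ s : ℂ, σ < s.re → euler S Z s = euler S X s * euler S Y s) :
    IsZeta S Z (fun s => f s * g s) := by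
  obtain ⟨f1, σ₁, f2⟩ := hf
  obtain ⟨g1, σ₂, g2⟩ := hg
  obtain ⟨σ₃, h⟩ := h
  refine ⟨fun z hz => (f1 z hz).fun_mul (g1 z hz), max (max σ₁ σ₂) σ₃, fun s hs => ?_⟩
  have h1 : σ₁ < s.re := lt_of_le_of_lt ((le_max_left _ _).trans (le_max_left _ _)) hs
  have h2 : σ₂ < s.re := lt_of_le_of_lt ((le_max_right _ _).trans (le_max_left _ _)) hs
  change f s * g s = _
  rw [f2 s h1, g2 s h2, h s (lt_of_le_of_lt (le_max_right _ _) hs)]

theorem isZeta_div {X Y Z : V} {f g : ℂ → ℂ} (hf : IsZeta S X f) (hg : IsZeta S Y g)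
    (h : ∃ σ : ℝ, ∀ s : ℂ, σ < s.re → euler S X s = euler S Z s * euler S Y s ∧ euler S Y s ≠ 0) :
    IsZeta S Z (fun s => f s * (g s)⁻¹) := by
  obtain ⟨f1, σ₁, f2⟩ := hf
  obtain ⟨g1, σ₂, g2⟩ := hg
  obtain ⟨σ₃, h⟩ := h
  refine ⟨fun z hz => (f1 z hz).fun_mul (g1 z hz).fun_inv, max (max σ₁ σ₂) σ₃, fun s hs => ?_⟩
  have h1 : σ₁ < s.re := lt_of_le_of_lt ((le_max_left _ _).trans (le_max_left _ _)) hs
  have h2 : σ₂ < s.re := lt_of_le_of_lt ((le_max_right _ _).trans (le_max_left _ _)) hs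
  obtain ⟨h3, h4⟩ := h s (lt_of_le_of_lt (le_max_right _ _) hs)
  change f s * (g s)⁻¹ = _
  rw [f2 s h1, g2 s h2, h3, mul_inv_cancel_right₀ h4]

theorem order_mul' {f g : ℂ → ℂ} {z : ℂ} {m n : ℤ} (hf : MeromorphicAt f z)
    (hg : MeromorphicAt g z) (h1 : meromorphicOrderAt f z = ((m : ℤ) : WithTop ℤ))
    (h2 : meromorphicOrderAt g z = ((n : ℤ) : WithTop ℤ)) :
    meromorphicOrderAt (fun s => f s * g s) z = ((m + n : ℤ) : WithTop ℤ) := by
  rw [fun_meromorphicOrderAt_mul hf hg, h1, h2]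
  rfl

theorem order_div' {f g : ℂ → ℂ} {z : ℂ} {m n : ℤ} (hf : MeromorphicAt f z)
    (hg : MeromorphicAt g z) (h1 : meromorphicOrderAt f z = ((m : ℤ) : WithTop ℤ))
    (h2 : meromorphicOrderAt g z = ((n : ℤ) : WithTop ℤ)) :
    meromorphicOrderAt (fun s => f s * (g s)⁻¹) z = ((m - n : ℤ) : WithTop ℤ) := by
  rw [fun_meromorphicOrderAt_mul hf hg.fun_inv, fun_meromorphicOrderAt_inv, h1, h2, sub_eq_add_neg]
  rfl

/-- the three groups of statements on ranks for a triple -/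
theorem triple_total {Z X U : V} (h : IsTriple S Z X U) (cZ : Converges S Z) (cU : Converges S U)
    (bZ : BlochSoule S Z) (bU : BlochSoule S U) : BlochSoule S X := by
  have hfin : ∀ a b, FiniteDimensional ℚ (S.M X a b) := by
    intro a b
    obtain ⟨α, β, δ, h1, h2⟩ := h.exact b
    exact finite_of_exact (h1 a).1 (h1 a).2.1 (h2 a).1 (bZ.finite a b) (bU.finite a b)
  have key : ∀ b, (supp fun a => S.M X a b).Finite ∧
      altRank S X b = altRank S Z b + altRank S U b := by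
    intro b
    obtain ⟨α, β, δ, h1, h2⟩ := h.exact b
    exact euler_char (fun a => (h1 a).1) (fun a => (h1 a).2.1) (fun a => (h1 a).2.2)
      (fun a => (h2 a).1) (fun a => (h2 a).2.1) (fun a => (h2 a).2.2) (fun a => bZ.finite a b)
      (fun a => hfin a b) (fun a => bU.finite a b) (bZ.bounded b) (bU.bounded b)
  obtain ⟨f, f1, f2⟩ := bZ.order
  obtain ⟨g, g1, g2⟩ := bU.order
  obtain ⟨σ, hσ⟩ := euler_triple h cZ cU
  refine ⟨hfin, fun b => (key b).1, fun s => f s * g s,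
    isZeta_mul f1 g1 ⟨σ, fun s hs => (hσ s hs).1⟩, fun b => ?_⟩
  rw [order_mul' (f1.1 _ trivial) (g1.1 _ trivial) (f2 b) (g2 b), (key b).2]
  congr 1
  ring

theorem triple_closed {Z X U : V} (h : IsTriple S Z X U) (cZ : Converges S Z) (cU : Converges S U)
    (bX : BlochSoule S X) (bU : BlochSoule S U) : BlochSoule S Z := by
  have hfin : ∀ a b, FiniteDimensional ℚ (S.M Z a b) := by
    intro a b
    obtain ⟨α, β, δ, h1, h2⟩ := h.exact b
    exact finite_of_exact (h1 a).2.2 (h1 a).1 (h2 a).2.2 (bU.finite (a + 1) b) (bX.finite a b)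
  have key : ∀ b, (supp fun a => S.M Z a b).Finite ∧
      altRank S X b = altRank S Z b + altRank S U b := by
    intro b
    obtain ⟨α, β, δ, h1, h2⟩ := h.exact b
    have h3 := supp_left (fun a => (h1 a).1) (fun a => (h1 a).2.1) (fun a => (h1 a).2.2)
      (fun a => (h2 a).1) (fun a => (h2 a).2.1) (fun a => (h2 a).2.2) (fun a => hfin a b)
      (fun a => bX.finite a b) (fun a => bU.finite a b) (bX.bounded b) (bU.bounded b)
    exact ⟨h3, (euler_char (fun a => (h1 a).1) (fun a => (h1 a).2.1) (fun a => (h1 a).2.2)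
      (fun a => (h2 a).1) (fun a => (h2 a).2.1) (fun a => (h2 a).2.2) (fun a => hfin a b)
      (fun a => bX.finite a b) (fun a => bU.finite a b) h3 (bU.bounded b)).2⟩
  obtain ⟨f, f1, f2⟩ := bX.order
  obtain ⟨g, g1, g2⟩ := bU.order
  obtain ⟨σ, hσ⟩ := euler_triple h cZ cU
  refine ⟨hfin, fun b => (key b).1, fun s => f s * (g s)⁻¹,
    isZeta_div f1 g1 ⟨σ, fun s hs => ⟨(hσ s hs).1, (hσ s hs).2.2⟩⟩, fun b => ?_⟩
  rw [order_div' (f1.1 _ trivial) (g1.1 _ trivial) (f2 b) (g2 b)]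
  congr 1
  linarith [(key b).2]

theorem triple_opened {Z X U : V} (h : IsTriple S Z X U) (cZ : Converges S Z) (cU : Converges S U)
    (bZ : BlochSoule S Z) (bX : BlochSoule S X) : BlochSoule S U := by
  have hfin : ∀ a b, FiniteDimensional ℚ (S.M U a b) := by
    intro a b
    obtain ⟨α, β, δ, h1, h2⟩ := h.exact b
    have h3 := finite_of_exact (h1 (a - 1 + 1)).2.1 (h1 (a - 1)).2.2 (h2 (a - 1)).2.1
      (bX.finite (a - 1 + 1) b) (bZ.finite (a - 1) b)
    rw [sub_add_cancel] at h3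
    exact h3
  have key : ∀ b, (supp fun a => S.M U a b).Finite ∧
      altRank S X b = altRank S Z b + altRank S U b := by
    intro b
    obtain ⟨α, β, δ, h1, h2⟩ := h.exact b
    have h3 := supp_right (fun a => (h1 a).1) (fun a => (h1 a).2.1) (fun a => (h1 a).2.2)
      (fun a => (h2 a).1) (fun a => (h2 a).2.1) (fun a => (h2 a).2.2) (fun a => bZ.finite a b)
      (fun a => bX.finite a b) (fun a => hfin a b) (bZ.bounded b) (bX.bounded b)
    exact ⟨h3, (euler_char (fun a => (h1 a).1) (fun a => (h1 a).2.1) (fun a => (h1 a).2.2)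
      (fun a => (h2 a).1) (fun a => (h2 a).2.1) (fun a => (h2 a).2.2) (fun a => bZ.finite a b)
      (fun a => bX.finite a b) (fun a => hfin a b) (bZ.bounded b) h3).2⟩
  obtain ⟨f, f1, f2⟩ := bX.order
  obtain ⟨g, g1, g2⟩ := bZ.order
  obtain ⟨σ, hσ⟩ := euler_triple h cZ cU
  refine ⟨hfin, fun b => (key b).1, fun s => f s * (g s)⁻¹,
    isZeta_div f1 g1 ⟨σ, fun s hs => ⟨?_, (hσ s hs).2.1⟩⟩, fun b => ?_⟩
  · rw [(hσ s hs).1, mul_comm]
  · rw [order_div' (f1.1 _ trivial) (g1.1 _ trivial) (f2 b) (g2 b)]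
    congr 1
    linarith [(key b).2]

/-- the ranks of a bundle -/
theorem bundle_rank {Y X : V} {n : ℕ} (h : IsBundle S Y X n) (a b : ℤ) :
    (FiniteDimensional ℚ (S.M Y (a + 2 * n) (b + n)) ↔ FiniteDimensional ℚ (S.M X a b)) ∧
      finrank ℚ (S.M Y (a + 2 * n) (b + n)) = finrank ℚ (S.M X a b) := by
  obtain ⟨φ, h1, h2⟩ := h.chow a b
  let e : S.M X a b ≃ₗ[ℚ] S.M Y (a + 2 * n) (b + n) := LinearEquiv.ofBijective (mkL h1) h2
  refine ⟨⟨fun h3 => LinearEquiv.finiteDimensional e.symm,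
    fun h3 => LinearEquiv.finiteDimensional e⟩, (LinearEquiv.finrank_eq e).symm⟩

theorem bundle_altRank {Y X : V} {n : ℕ} (h : IsBundle S Y X n) (b : ℤ) :
    altRank S Y (b + n) = altRank S X b := by
  unfold altRank
  rw [← finsum_comp_equiv (Equiv.addRight (2 * (n : ℤ)))]
  refine finsum_congr fun a => ?_
  change (-1 : ℤ) ^ (a + 2 * n).natAbs * (finrank ℚ (S.M Y (a + 2 * n) (b + n)) : ℤ) = _
  rw [sign_add_two, (bundle_rank h a b).2]

theorem bundle_up {Y X : V} {n : ℕ} (h : IsBundle S Y X n) (bX : BlochSoule S X) :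
    BlochSoule S Y := by
  obtain ⟨f, ⟨f1, σ₁, f2⟩, f3⟩ := bX.order
  obtain ⟨σ₂, h2⟩ := h.zeta
  refine ⟨fun a b => ?_, fun b => ?_, fun s => f (s - n), ⟨fun z _ => ?_, max (σ₁ + n) σ₂,
    fun s hs => ?_⟩, fun b => ?_⟩
  · have h3 := (bundle_rank h (a - 2 * n) (b - n)).1.2 (bX.finite _ _)
    rw [sub_add_cancel, sub_add_cancel] at h3
    exact h3
  · refine ((bX.bounded (b - n)).image fun a => a + 2 * (n : ℤ)).subset fun a ha => ?_
    refine ⟨a - 2 * n, ?_, by simp⟩
    have h3 := (bundle_rank h (a - 2 * n) (b - n)).2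
    rw [sub_add_cancel, sub_add_cancel] at h3
    change finrank ℚ _ ≠ 0
    rw [← h3]
    exact ha
  · have h4 := f1 (z - n) trivial
    exact MeromorphicAt.comp_analyticAt (g := fun s : ℂ => s - n) h4 (by fun_prop)
  · have h3 : σ₁ < (s - n).re := by
      have := lt_of_le_of_lt (le_max_left _ _) hs
      rw [Complex.sub_re, Complex.natCast_re]
      linarith
    change f (s - n) = _
    rw [f2 _ h3, h2 s (lt_of_le_of_lt (le_max_right _ _) hs)]
  · have h3 := f3 (b - n)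
    have h4 := bundle_altRank h (b - n)
    rw [sub_add_cancel] at h4
    rw [meromorphicOrderAt_fun_comp_sub_const_eq_meromorphicOrderAt, h4]
    push_cast at h3
    exact h3

theorem bundle_down {Y X : V} {n : ℕ} (h : IsBundle S Y X n) (bY : BlochSoule S Y) :
    BlochSoule S X := by
  obtain ⟨f, ⟨f1, σ₁, f2⟩, f3⟩ := bY.order
  obtain ⟨σ₂, h2⟩ := h.zeta
  refine ⟨fun a b => (bundle_rank h a b).1.1 (bY.finite _ _), fun b => ?_, fun s => f (s + n),
    ⟨fun z _ => ?_, max (σ₁ - n) (σ₂ - n), fun s hs => ?_⟩, fun b => ?_⟩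
  · refine ((bY.bounded (b + n)).image fun a => a - 2 * (n : ℤ)).subset fun a ha => ?_
    refine ⟨a + 2 * n, ?_, by simp⟩
    change finrank ℚ _ ≠ 0
    rw [(bundle_rank h a b).2]
    exact ha
  · have h4 := f1 (z + n) trivial
    exact MeromorphicAt.comp_analyticAt (g := fun s : ℂ => s + n) h4 (by fun_prop)
  · have h3 : σ₁ < (s + n).re := by
      have := lt_of_le_of_lt (le_max_left _ _) hs
      rw [Complex.add_re, Complex.natCast_re]
      linarith
    have h4 : σ₂ < (s + n).re := by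
      have := lt_of_le_of_lt (le_max_right _ _) hs
      rw [Complex.add_re, Complex.natCast_re]
      linarith
    change f (s + n) = _
    rw [f2 _ h3, h2 _ h4, add_sub_cancel_right]
  · have h3 := f3 (b + n)
    rw [bundle_altRank h b] at h3
    rw [meromorphicOrderAt_fun_comp_add_const_eq_meromorphicOrderAt]
    push_cast at h3
    exact h3

theorem generated {B : V → Prop} (hS : ∀ X, Converges S X) (hB : ∀ X, B X → BlochSoule S X)
    {X : V} (hX : Generated S B X) : BlochSoule S X := by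
  induction hX with
  | base X h => exact hB X h
  | closed Z X U h hX hU ihX ihU => exact triple_closed h (hS Z) (hS U) ihX ihU
  | total Z X U h hZ hU ihZ ihU => exact triple_total h (hS Z) (hS U) ihZ ihU
  | opened Z X U h hZ hX ihZ ihX => exact triple_opened h (hS Z) (hS U) ihZ ihX
  | bundle Y X n h hX ih => exact bundle_up h ih
  | ofBundle Y X n h hY ih => exact bundle_down h ih

end Pool.Agent.X303.Arith
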