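import Pool.Agent.X303.ZetaDefs

/-!
# Arithmetic schemes, their zeta functions and their higher Chow groups
-/

set_option autoImplicit false

namespace Pool.Agent.X303.Arith

open Pool.Agent.W495.FM Pool.Agent.X303.TBDual Module

noncomputable section

/-- Data of the schemes `X : V` of finite type over `ℤ`: the set `Pt X` of the closed points, the number
`N x` of the elements of the residue field of the closed point `x`, and the groups
`M X a b = CH_b(X, a - 2 b) ⊗ ℚ` (higher Chow groups, indexed by dimension). -/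
structure Schemes (V : Type) where
  Pt : V → Type
  N : ∀ X : V, Pt X → ℕ
  M : V → ℤ → ℤ → Type
  [grp : ∀ X a b, AddCommGroup (M X a b)]
  [mod : ∀ X a b, Module ℚ (M X a b)]

attribute [instance] Schemes.grp Schemes.mod

variable {V : Type}

/-- The Euler product `∏ (1 - N(x) ^ (-s))⁻¹` over the closed points of `X`. -/
def euler (S : Schemes V) (X : V) (s : ℂ) : ℂ :=
  ∏' x : S.Pt X, (1 - (S.N X x : ℂ) ^ (-s))⁻¹

/-- The Euler product of `X` converges, and its value is not zero, on a right half-plane. -/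
def Converges (S : Schemes V) (X : V) : Prop :=
  ∃ σ : ℝ, ∀ s : ℂ, σ < s.re →
    Multipliable (fun x : S.Pt X => (1 - (S.N X x : ℂ) ^ (-s))⁻¹) ∧ euler S X s ≠ 0

/-- The function `f` is meromorphic on `ℂ` and is the Euler product of `X` on a right half-plane. -/
def IsZeta (S : Schemes V) (X : V) (f : ℂ → ℂ) : Prop :=
  MeromorphicOn f Set.univ ∧ ∃ σ : ℝ, ∀ s : ℂ, σ < s.re → f s = euler S X s

/-- The alternating sum of the ranks of the groups `CH_b(X, i)`, `i = a - 2 b`. -/
def altRank (S : Schemes V) (X : V) (b : ℤ) : ℤ :=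
  ∑ᶠ a : ℤ, (-1 : ℤ) ^ a.natAbs * (finrank ℚ (S.M X a b) : ℤ)

/-- The statements of Bloch and Soulé for `X`: the groups `CH_b(X, i)` have finite rank, which is zero for
all but finitely many `i`, the zeta function of `X` has a meromorphic continuation to `ℂ`, and for all
integers `b` its order at `s = b` is minus the alternating sum of the ranks of the groups `CH_b(X, i)`. -/
structure BlochSoule (S : Schemes V) (X : V) : Prop where
  finite : ∀ a b, FiniteDimensional ℚ (S.M X a b)
  bounded : ∀ b, {a | finrank ℚ (S.M X a b) ≠ 0}.Finite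
  order : ∃ f : ℂ → ℂ, IsZeta S X f ∧ ∀ b : ℤ,
    meromorphicOrderAt f (b : ℂ) = ((-altRank S X b : ℤ) : WithTop ℤ)

/-- `Z` is a closed subscheme of `X` with the complement `U`: the closed points, and the long exact
localisation sequence of higher Chow groups. -/
structure IsTriple (S : Schemes V) (Z X U : V) : Prop where
  points : ∃ e : S.Pt Z ⊕ S.Pt U → S.Pt X, Function.Bijective e ∧
    (∀ z, S.N X (e (Sum.inl z)) = S.N Z z) ∧ ∀ u, S.N X (e (Sum.inr u)) = S.N U u
  exact : ∀ b : ℤ, ∃ (α : ∀ a, S.M Z a b → S.M X a b) (β : ∀ a, S.M X a b → S.M U a b)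
    (δ : ∀ a, S.M U (a + 1) b → S.M Z a b),
    (∀ a, IsAdd (α a) ∧ IsAdd (β a) ∧ IsAdd (δ a)) ∧
    ∀ a, Function.Exact (α a) (β a) ∧ Function.Exact (β (a + 1)) (δ a) ∧ Function.Exact (δ a) (α a)

/-- `Y` is an affine bundle of rank `n` over `X`: homotopy invariance of higher Chow groups, and the
relation of the zeta functions. -/
structure IsBundle (S : Schemes V) (Y X : V) (n : ℕ) : Prop where
  chow : ∀ a b : ℤ, ∃ φ : S.M X a b → S.M Y (a + 2 * n) (b + n), IsAdd φ ∧ Function.Bijective φ
  zeta : ∃ σ : ℝ, ∀ s : ℂ, σ < s.re → euler S Y s = euler S X (s - n)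

/-- The smallest class of schemes of finite type over `ℤ` that contains those with the property `B`, that
contains all of a closed subscheme `Z` of `X`, `X` and `X ∖ Z` if it contains two of them, and that contains,
for an affine bundle `Y` over `X`, the scheme `Y` if it contains `X` and conversely. -/
inductive Generated (S : Schemes V) (B : V → Prop) : V → Prop
  | base (X : V) (h : B X) : Generated S B X
  | closed (Z X U : V) (h : IsTriple S Z X U) (hX : Generated S B X) (hU : Generated S B U) :
      Generated S B Z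
  | total (Z X U : V) (h : IsTriple S Z X U) (hZ : Generated S B Z) (hU : Generated S B U) :
      Generated S B X
  | opened (Z X U : V) (h : IsTriple S Z X U) (hZ : Generated S B Z) (hX : Generated S B X) :
      Generated S B U
  | bundle (Y X : V) (n : ℕ) (h : IsBundle S Y X n) (hX : Generated S B X) : Generated S B Y
  | ofBundle (Y X : V) (n : ℕ) (h : IsBundle S Y X n) (hY : Generated S B Y) : Generated S B X

/-- The ranks of the groups `CH_b(X, a - 2 b)` for the ring of integers of a number field with `r₁` real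
and `r₂` complex places: `CH_1(X, 0)` has rank one, `CH_0(X, 1)`, the group of units, has the rank
`r₁ + r₂ - 1` (Dirichlet), for `b < 0` the group `CH_b(X, 1 - 2 b) = K_(1 - 2 b)(X)` has the rank `r₁ + r₂`
if `b` is even, `r₂` if `b` is odd (Borel), and all other groups are torsion. -/
def numberRank (r₁ r₂ : ℕ) (a b : ℤ) : ℕ :=
  if b = 1 ∧ a = 2 then 1
  else if b = 0 ∧ a = 1 then r₁ + r₂ - 1
  else if b < 0 ∧ a = 1 then (if Even b then r₁ + r₂ else r₂)
  else 0

/-- The orders of the Dedekind zeta function of a number field with `r₁` real and `r₂` complex places at the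
integers (Hecke). -/
def numberOrder (r₁ r₂ : ℕ) (b : ℤ) : ℤ :=
  if b = 1 then -1
  else if b = 0 then ((r₁ + r₂ - 1 : ℕ) : ℤ)
  else if b < 0 then (if Even b then ((r₁ + r₂ : ℕ) : ℤ) else (r₂ : ℤ))
  else 0

/-- `X` is the spectrum of the ring of integers of a number field. -/
def IsNumberRing (S : Schemes V) (X : V) : Prop :=
  ∃ r₁ r₂ : ℕ, (∀ a b, FiniteDimensional ℚ (S.M X a b) ∧
      finrank ℚ (S.M X a b) = numberRank r₁ r₂ a b) ∧
    ∃ f : ℂ → ℂ, IsZeta S X f ∧ ∀ b : ℤ,
      meromorphicOrderAt f (b : ℂ) = ((numberOrder r₁ r₂ b : ℤ) : WithTop ℤ)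

/-- The spaces `C.H j`, `j ≤ n`, with the Frobenius endomorphisms `C.F j`, are the `ℓ`-adic cohomology groups
with compact supports `H_c^j(X)` (with coefficients extended to `ℂ`) of the scheme `X : W` over the field with
`q` elements, for some `n ≥ 2 dim X`: they are dual to `H_j(X, ℚ_ℓ(b))`, twisted `b` times, for all `b`. -/
structure IsCompactCoh {W : Type} (T : Homology ℂ W) (X : W) (q : ℕ) (C : FrobCoh) (n : ℕ) : Prop where
  finite : ∀ j, FiniteDimensional ℂ (C.H j)
  injective : ∀ j, Function.Injective (C.F j)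
  dual : ∀ (j : ℕ) (b : ℤ), ∃ P : T.E X j b → C.H j → ℂ, IsBilin ℂ P ∧
    (∀ e, (∀ w, P e w = 0) → e = 0) ∧ (∀ w, (∀ e, P e w = 0) → w = 0) ∧
    ∀ e w, P (T.frob X j b e) (C.F j w) = (q : ℂ) ^ b * P e w
  vanish : ∀ a b : ℤ, a < 0 ∨ (n : ℤ) < a → ∀ e : T.E X a b, e = 0

/-- The scheme `X : V` of finite type over `ℤ` is a scheme `X' : W` over a finite field; the zeta function is
given by the formula of Grothendieck. -/
def IsFinite (S : Schemes V) (X : V) {W : Type} (T : Homology ℂ W) (X' : W) : Prop :=
  ∃ (q : ℕ) (C : FrobCoh) (n : ℕ), 1 < q ∧ IsCompactCoh T X' q C n ∧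
    (∀ a b, ∃ φ : S.M X a b → T.M X' a b, IsAdd φ ∧ Function.Bijective φ) ∧
    ∃ σ : ℝ, ∀ s : ℂ, σ < s.re → C.zeta q n s = euler S X s

end

end Pool.Agent.X303.Arith
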